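import Pool.Agent.Q230.GD.Red

/-!
# The isomorphism problem for geodetic graphs is GI-complete

The graph isomorphism problem for arbitrary finite graphs reduces in polynomial time to the
isomorphism problem for geodetic graphs, even for geodetic graphs which are 2-connected (geodetic
blocks) and have diameter at most five. So geodetic graphs have a polynomial-time isomorphism test
iff all graphs have one.

**Proof.** For a linear space (a set of points and a set of lines such that each two points are on
exactly one line) take the graph whose vertices are the points and the flags (incident pairs of a
point and a line), where a point is joined to its flags, and any two flags with the same line are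
joined. This graph is geodetic, and it is 2-connected if each line has at least two points and no
line contains all points. For a graph `X` take the following linear space: the vertices `v` of `X`
are lines, the points are the edges of `X` (each on its two ends), three further points on each line
`v`, and three points outside of these lines; all pairs of points which are not on such a line are
further lines, with two points. In the flag graph the vertices in triangles are the flags of the lines
`v`; being in a common triangle or equal is an equivalence relation on them with one class for each
vertex of `X`, and two vertices of `X` are adjacent iff some vertex of the flag graph has neighbours in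
both classes. So the flag graph determines `X` up to isomorphism.
-/

set_option autoImplicit false

namespace Pool.Agent.Results.MP_f934c9_lc.GIComplete

open Pool.Agent.NPC Pool.Agent.NPC.R671 Pool.Agent.Q230.GD

/-- **The isomorphism problem for geodetic graphs is GI-complete.**

* There is a polynomial-time computable function `f` on bit strings such that, for every bit string
  `x`, the value `f x` codes a pair of adjacency matrices of finite graphs `X'`, `Y'` which are
  geodetic, 2-connected and of diameter at most five, and `x` is a yes-instance of the graph
  isomorphism problem for arbitrary graphs iff `X'` and `Y'` are isomorphic.
* There is a polynomial-time isomorphism test for geodetic graphs iff there is one for all graphs.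
* The same holds for the isomorphism test for geodetic graphs which are 2-connected and of diameter
  at most five. -/
theorem result :
    (∃ f : List Bool → List Bool, PolyTime f ∧ ∀ x : List Bool,
      ∃ (N M : ℕ) (X' : SimpleGraph (Fin N)) (Y' : SimpleGraph (Fin M)),
        f x = bits (adjMatrix X', adjMatrix Y') ∧
        (Geodetic X' ∧ TwoConnected X' ∧ ∀ u v, X'.dist u v ≤ 5) ∧
        (Geodetic Y' ∧ TwoConnected Y' ∧ ∀ u v, Y'.dist u v ≤ 5) ∧
        (x ∈ lang GraphIso ↔ Nonempty (X' ≃g Y'))) ∧
    (IsoInP (fun _ X => Geodetic X) ↔ IsoInP (fun _ _ => True)) ∧
    (IsoInP (fun _ X => Geodetic X ∧ TwoConnected X ∧ ∀ u v, X.dist u v ≤ 5) ↔
      IsoInP (fun _ _ => True)) :=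
  ⟨main, isoInP_iff _ fun _ _ h => h.1, isoInP_iff _ fun _ _ h => h⟩

end Pool.Agent.Results.MP_f934c9_lc.GIComplete
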